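import Mathlib
import Pool.Agent.H868R3.TBTypeB

/-!
# Locally nilpotent derivations: units, conjugates of `∂/∂u`
-/

open Finset Polynomial

namespace Q47.TA

open Pool.Agent.H868R3

universe u v

section

variable {K : Type u} {A : Type v} [Field K] [CommRing A] [Algebra K A]

lemma iter_leibniz (D : Derivation K A A) (n : ℕ) (a b : A) :
    (⇑D)^[n] (a * b) =
      ∑ ij ∈ antidiagonal n, n.choose ij.1 • ((⇑D)^[ij.1] a * (⇑D)^[ij.2] b) := by
  induction n with
  | zero => simp
  | succ n ih =>
    rw [Finset.sum_antidiagonal_choose_succ_nsmul (M := A)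
      (fun i j => (⇑D)^[i] a * (⇑D)^[j] b) n]
    simp only [Function.iterate_succ_apply', ih, map_sum, map_nsmul, Derivation.leibniz,
      smul_eq_mul, smul_add, sum_add_distrib]
    congr 1
    refine sum_congr rfl fun ⟨i, j⟩ hij ↦ ?_
    rw [n.choose_symm_of_eq_add (mem_antidiagonal.1 hij).symm, mul_comm]

lemma iter_ge (D : Derivation K A A) {n k : ℕ} {a : A} (h : (⇑D)^[n] a = 0) (hk : n ≤ k) :
    (⇑D)^[k] a = 0 := by
  obtain ⟨j, rfl⟩ := Nat.exists_eq_add_of_le hk
  rw [add_comm, Function.iterate_add_apply, h]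
  exact iterate_map_zero _ _

/-- the largest `n` with `D^n a ≠ 0` -/
lemma exists_deg {D : Derivation K A A} (hD : IsLND D) {a : A} (ha : a ≠ 0) :
    ∃ n, (⇑D)^[n] a ≠ 0 ∧ ∀ k, n < k → (⇑D)^[k] a = 0 := by
  classical
  have h := hD a
  have h0 : Nat.find h ≠ 0 := by
    intro h0
    have := Nat.find_spec h
    rw [h0] at this
    exact ha this
  obtain ⟨n, hn⟩ := Nat.exists_eq_succ_of_ne_zero h0
  refine ⟨n, ?_, fun k hk => ?_⟩
  · exact Nat.find_min h (by omega)
  · apply iter_ge D (Nat.find_spec h)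
    omega

/-- Locally nilpotent derivations of domains kill units. -/
theorem lnd_unit [CharZero K] [IsDomain A] {D : Derivation K A A} (hD : IsLND D) {a b : A}
    (hab : a * b = 1) : D a = 0 := by
  have ha : a ≠ 0 := left_ne_zero_of_mul_eq_one hab
  have hb : b ≠ 0 := right_ne_zero_of_mul_eq_one hab
  obtain ⟨n, hn, hn'⟩ := exists_deg hD ha
  obtain ⟨m, hm, hm'⟩ := exists_deg hD hb
  have h1 : (⇑D)^[n + m] (a * b) ≠ 0 := by
    rw [iter_leibniz, Finset.sum_eq_single (n, m)]
    · have : CharZero A := charZero_of_injective_algebraMap (algebraMap K A).injective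
      rw [nsmul_eq_mul]
      exact mul_ne_zero (Nat.cast_ne_zero.2 (Nat.choose_pos (by omega)).ne') (mul_ne_zero hn hm)
    · rintro ⟨i, j⟩ hij hne
      rw [HasAntidiagonal.mem_antidiagonal] at hij
      simp only at hij ⊢
      rcases lt_trichotomy i n with h | h | h
      · rw [hm' j (by omega), mul_zero, smul_zero]
      · exfalso
        apply hne
        have : j = m := by omega
        rw [h, this]
      · rw [hn' i h, zero_mul, smul_zero]
    · intro h
      exact absurd ((HasAntidiagonal.mem_antidiagonal (n := n + m) (a := (n, m))).2 rfl) h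
  have h2 : n = 0 := by
    by_contra hne
    apply h1
    rw [hab]
    apply iter_ge D (n := 1) _ (by omega)
    simp
  subst h2
  have := hn' 1 (by omega)
  simpa using this

end

section conj

variable {K : Type u} {A : Type u} [Field K] [CommRing A] [Algebra K A]

/-- the derivation `φ ∂ φ⁻¹` -/
noncomputable def conjD (φ : A[X] ≃ₐ[K] A[X]) : Derivation K A[X] A[X] :=
  Derivation.mk' (φ.toLinearMap ∘ₗ ((Polynomial.derivative' : Derivation A A[X] A[X]).restrictScalars
    K : A[X] →ₗ[K] A[X]) ∘ₗ φ.symm.toLinearMap) (by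
    intro a b
    simp only [LinearMap.comp_apply, AlgEquiv.toLinearMap_apply, map_mul, Derivation.coeFn_coe,
      Derivation.leibniz, smul_eq_mul, map_add, AlgEquiv.apply_symm_apply])

lemma conjD_apply (φ : A[X] ≃ₐ[K] A[X]) (F : A[X]) :
    conjD φ F = φ (derivative (φ.symm F)) := rfl

lemma conjD_iter (φ : A[X] ≃ₐ[K] A[X]) (F : A[X]) (n : ℕ) :
    (⇑(conjD φ))^[n] F = φ ((⇑derivative)^[n] (φ.symm F)) := by
  induction n with
  | zero => simp
  | succ n ih =>
    rw [Function.iterate_succ_apply', ih, conjD_apply, AlgEquiv.symm_apply_apply,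
      Function.iterate_succ_apply']

/-- The image of the constants under an automorphism of the cylinder is in the modified Derksen
invariant. -/
theorem equiv_C_mem (φ : A[X] ≃ₐ[K] A[X]) (a : A) : φ (C a) ∈ HDStar K A[X] := by
  apply Algebra.subset_adjoin
  refine ⟨conjD φ, ?_, ⟨φ X, ?_⟩, ?_⟩
  · intro F
    refine ⟨(φ.symm F).natDegree + 1, ?_⟩
    rw [conjD_iter, Polynomial.iterate_derivative_eq_zero (Nat.lt_succ_self _), map_zero]
  · rw [conjD_apply, AlgEquiv.symm_apply_apply, derivative_X, map_one]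
  · rw [conjD_apply, AlgEquiv.symm_apply_apply, derivative_C, map_zero]

/-- The modified Derksen invariant is invariant under automorphisms. -/
theorem equiv_mem (φ : A[X] ≃ₐ[K] A[X]) {F : A[X]} (hF : F ∈ HDStar K A[X]) :
    φ F ∈ HDStar K A[X] := by
  have h : HDStar K A[X] ≤ (HDStar K A[X]).comap (φ : A[X] →ₐ[K] A[X]) := by
    apply Algebra.adjoin_le
    rintro G ⟨D, hD, ⟨s, hs⟩, hG⟩
    apply Algebra.subset_adjoin
    let D' : Derivation K A[X] A[X] := Derivation.mk'
      (φ.toLinearMap ∘ₗ (D : A[X] →ₗ[K] A[X]) ∘ₗ φ.symm.toLinearMap) (by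
        intro a b
        simp only [LinearMap.comp_apply, AlgEquiv.toLinearMap_apply, map_mul,
          Derivation.coeFn_coe, Derivation.leibniz, smul_eq_mul, map_add,
          AlgEquiv.apply_symm_apply])
    have hD' : ∀ F, D' F = φ (D (φ.symm F)) := fun F => rfl
    have hiter : ∀ n F, (⇑D')^[n] F = φ ((⇑D)^[n] (φ.symm F)) := by
      intro n F
      induction n with
      | zero => simp
      | succ n ih =>
        rw [Function.iterate_succ_apply', ih, hD', AlgEquiv.symm_apply_apply,
          Function.iterate_succ_apply']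
    refine ⟨D', ?_, ⟨φ s, ?_⟩, ?_⟩
    · intro F
      obtain ⟨n, hn⟩ := hD (φ.symm F)
      exact ⟨n, by rw [hiter, hn, map_zero]⟩
    · rw [hD', AlgEquiv.symm_apply_apply, hs, map_one]
    · change D' (φ G) = 0
      rw [hD', AlgEquiv.symm_apply_apply, hG, map_zero]
  exact h hF

end conj

end Q47.TA
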