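import Mathlib
import Pool.Agent.Q47.TA.Lnd
import Pool.Agent.H868R3.TBBase
import Pool.Agent.H868R3.TBIso

/-!
# The surface and its locally nilpotent derivations

Let `L = K[x, x⁻¹]`, `τ = x - 1` and let `B ⊆ L[V]` be the subalgebra generated by `x`, `x⁻¹`,
`v = τ V`, `z = V (τ V - 1)` and `w = V² (τ V - 1)`.
-/

open Polynomial

namespace Q47.TA

open Pool.Agent.H868R3

universe u

variable (K : Type u) [Field K]

/-- the Laurent polynomials -/
abbrev L := LaurentPolynomial K

/-- the element `τ = x - 1` -/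
noncomputable def τ : L K := LaurentPolynomial.T 1 - 1

/-- the surface -/
noncomputable def B : Subalgebra K (L K)[X] :=
  Algebra.adjoin K {C (LaurentPolynomial.T 1), C (LaurentPolynomial.T (-1)), C (τ K) * X,
    X * (C (τ K) * X - 1), X ^ 2 * (C (τ K) * X - 1)}

variable {K}

lemma τ_ne : τ K ≠ 0 := by
  intro h
  have h1 : toLaurent (X - 1 : K[X]) = 0 := by
    rw [map_sub, Polynomial.toLaurent_X, map_one]
    exact h
  rw [Polynomial.toLaurent_eq_zero] at h1
  have := Polynomial.X_sub_C_ne_zero (1 : K)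
  rw [map_one] at this
  exact this h1

lemma x_mem : (C (LaurentPolynomial.T 1) : (L K)[X]) ∈ B K := Algebra.subset_adjoin (by simp)

lemma xi_mem : (C (LaurentPolynomial.T (-1)) : (L K)[X]) ∈ B K := Algebra.subset_adjoin (by simp)

lemma v_mem : (C (τ K) * X : (L K)[X]) ∈ B K := Algebra.subset_adjoin (by simp)

lemma z_mem : (X * (C (τ K) * X - 1) : (L K)[X]) ∈ B K := Algebra.subset_adjoin (by simp)

lemma w_mem : (X ^ 2 * (C (τ K) * X - 1) : (L K)[X]) ∈ B K := Algebra.subset_adjoin (by simp)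

lemma C_mem_of {S : Subalgebra K (L K)[X]} (h1 : C (LaurentPolynomial.T 1) ∈ S)
    (h2 : C (LaurentPolynomial.T (-1)) ∈ S) (r : L K) : (C r : (L K)[X]) ∈ S := by
  have h3 : (⊤ : Subalgebra K (L K)) ≤ S.comap (IsScalarTower.toAlgHom K (L K) (L K)[X]) := by
    rw [← laurent_adjoin]
    apply Algebra.adjoin_le
    rintro y (rfl | hy)
    · exact h1
    · rw [Set.mem_singleton_iff] at hy
      subst hy
      exact h2
  exact h3 (Algebra.mem_top (x := r))

lemma C_mem (r : L K) : (C r : (L K)[X]) ∈ B K := C_mem_of x_mem xi_mem r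

/-! ### The second chart -/

/-- the field of fractions -/
abbrev Fr (K : Type u) [Field K] := FractionRing (L K)

/-- the second chart `V ↦ (1 + τ² W) / τ` -/
noncomputable def Θ : (L K)[X] →+* (Fr K)[X] :=
  eval₂RingHom (C.comp (algebraMap (L K) (Fr K)))
    (C (algebraMap (L K) (Fr K) (τ K))⁻¹ + C (algebraMap (L K) (Fr K) (τ K)) * X)

lemma Θ_C (r : L K) : Θ (C r) = C (algebraMap (L K) (Fr K) r) := by
  simp [Θ]

lemma Θ_X : Θ (X : (L K)[X]) = C (algebraMap (L K) (Fr K) (τ K))⁻¹ +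
    C (algebraMap (L K) (Fr K) (τ K)) * X := by
  simp [Θ]

lemma ιτ_ne : algebraMap (L K) (Fr K) (τ K) ≠ 0 := by
  intro h
  apply τ_ne (K := K)
  exact (IsFractionRing.injective (L K) (Fr K)) (by rw [h, map_zero])

/-- `τ V ↦ 1 + τ² W` -/
lemma Θ_v : Θ (C (τ K) * X) = 1 + C (algebraMap (L K) (Fr K) (τ K)) ^ 2 * X := by
  rw [map_mul, Θ_C, Θ_X, mul_add, ← C_mul, mul_inv_cancel₀ ιτ_ne, C_1]
  ring

/-- In the second chart the elements of `B` are regular. -/
lemma Θ_mem {b : (L K)[X]} (hb : b ∈ B K) :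
    ∃ g : (L K)[X], Θ b = g.map (algebraMap (L K) (Fr K)) := by
  have hX : Θ (X : (L K)[X]) = C (algebraMap (L K) (Fr K) (τ K))⁻¹ *
      (1 + C (algebraMap (L K) (Fr K) (τ K)) ^ 2 * X) := by
    rw [Θ_X, mul_add, mul_one]
    congr 1
    rw [sq, mul_assoc, ← mul_assoc, ← C_mul, inv_mul_cancel₀ ιτ_ne, C_1, one_mul]
  have hcc : C (algebraMap (L K) (Fr K) (τ K))⁻¹ * C (algebraMap (L K) (Fr K) (τ K)) = 1 := by
    rw [← C_mul, inv_mul_cancel₀ ιτ_ne, C_1]
  refine Algebra.adjoin_induction (R := K)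
    (p := fun b _ => ∃ g : (L K)[X], Θ b = g.map (algebraMap (L K) (Fr K))) ?_ ?_ ?_ ?_ hb
  · intro y hy
    simp only [Set.mem_insert_iff, Set.mem_singleton_iff] at hy
    rcases hy with rfl | rfl | rfl | rfl | rfl
    · exact ⟨C (LaurentPolynomial.T 1), by rw [Θ_C, Polynomial.map_C]⟩
    · exact ⟨C (LaurentPolynomial.T (-1)), by rw [Θ_C, Polynomial.map_C]⟩
    · refine ⟨1 + C (τ K) ^ 2 * X, ?_⟩
      rw [Θ_v]
      simp
    · refine ⟨C (τ K) * X * (1 + C (τ K) ^ 2 * X), ?_⟩
      rw [map_mul, map_sub, Θ_v, hX, map_one]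
      simp only [Polynomial.map_mul, Polynomial.map_add, Polynomial.map_one, Polynomial.map_pow,
        Polynomial.map_C, Polynomial.map_X]
      linear_combination ((1 + C (algebraMap (L K) (Fr K) (τ K)) ^ 2 * X) *
        C (algebraMap (L K) (Fr K) (τ K)) * X) * hcc
    · refine ⟨X * (1 + C (τ K) ^ 2 * X) ^ 2, ?_⟩
      rw [map_mul, map_pow, map_sub, Θ_v, hX, map_one]
      simp only [Polynomial.map_mul, Polynomial.map_add, Polynomial.map_one, Polynomial.map_pow,
        Polynomial.map_C, Polynomial.map_X]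
      linear_combination ((1 + C (algebraMap (L K) (Fr K) (τ K)) ^ 2 * X) ^ 2 * X *
        (C (algebraMap (L K) (Fr K) (τ K))⁻¹ * C (algebraMap (L K) (Fr K) (τ K)) + 1)) * hcc
  · intro r
    refine ⟨C (algebraMap K (L K) r), ?_⟩
    have : (algebraMap K (L K)[X] r) = C (algebraMap K (L K) r) := rfl
    rw [this, Θ_C, Polynomial.map_C]
  · rintro a b _ _ ⟨g, hg⟩ ⟨g', hg'⟩
    exact ⟨g + g', by rw [map_add, hg, hg', Polynomial.map_add]⟩
  · rintro a b _ _ ⟨g, hg⟩ ⟨g', hg'⟩
    exact ⟨g * g', by rw [map_mul, hg, hg', Polynomial.map_mul]⟩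

/-- If `(3 τ V² - 2 V) p / τ` is in `B`, then `τ²` divides `p`. -/
lemma dvd_of_w {p : L K} {e : (L K)[X]} (he : e ∈ B K)
    (h : C (τ K) * e = (3 * C (τ K) * X ^ 2 - 2 * X) * C p) : τ K ^ 2 ∣ p := by
  obtain ⟨g, hg⟩ := Θ_mem he
  have h1 := congrArg Θ h
  have e3 : Θ (3 : (L K)[X]) = 3 := map_ofNat Θ 3
  have e2 : Θ (2 : (L K)[X]) = 2 := map_ofNat Θ 2
  simp only [map_mul, map_sub, map_pow, e3, e2, hg, Θ_C, Θ_X] at h1
  set s : Fr K := algebraMap (L K) (Fr K) (τ K) with hs
  have hs0 : s ≠ 0 := ιτ_ne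
  have h2 := congrArg (fun P => P.eval 0) h1
  simp only [eval_mul, eval_C, eval_sub, eval_pow, eval_add, eval_X, mul_zero, add_zero,
    eval_ofNat] at h2
  have h3 : s * (s * ((g.map (algebraMap (L K) (Fr K))).eval 0)) = algebraMap (L K) (Fr K) p := by
    rw [h2]
    field_simp
    ring
  have h4 : (g.map (algebraMap (L K) (Fr K))).eval 0 = algebraMap (L K) (Fr K) (g.coeff 0) := by
    rw [← coeff_zero_eq_eval_zero, coeff_map]
  rw [h4] at h3
  refine ⟨g.coeff 0, ?_⟩
  apply IsFractionRing.injective (L K) (Fr K)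
  rw [← h3, map_mul, map_pow]
  ring

/-! ### Locally nilpotent derivations -/

/-- The regular functions of the surface (or of a subalgebra which is only smaller outside `x = 1`)
which are images of locally nilpotent derivations vanish at the points `x = 1`, `V = a`. -/
theorem lnd_vanish [CharZero K] (S : Subalgebra K (L K)[X]) (hS : S ≤ B K)
    (hx : C (LaurentPolynomial.T 1) ∈ S) (hxi : C (LaurentPolynomial.T (-1)) ∈ S) (h : L K)
    (hB : ∀ b ∈ B K, C h * b ∈ S) (hh : evL (1 : Kˣ) h ≠ 0) (D : Derivation K S S)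
    (hD : IsLND (K := K) (A := S) D) (f : S) (a : K) :
    ev (evL (1 : Kˣ)) a (D f : (L K)[X]) = 0 := by
  have hC : ∀ r, (C r : (L K)[X]) ∈ S := C_mem_of hx hxi
  have hh0 : h ≠ 0 := by
    rintro rfl
    exact hh (map_zero _)
  have hCh0 : (C h : (L K)[X]) ≠ 0 := by rwa [Ne, C_eq_zero]
  have hCt0 : (C (τ K) : (L K)[X]) ≠ 0 := by
    rw [Ne, C_eq_zero]
    exact τ_ne
  -- `D` kills Laurent polynomials
  have hT : D ⟨C (LaurentPolynomial.T 1), hC _⟩ = 0 := by
    apply lnd_unit hD (b := ⟨C (LaurentPolynomial.T (-1)), hC _⟩)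
    apply Subtype.ext
    change C (LaurentPolynomial.T 1) * C (LaurentPolynomial.T (-1)) = (1 : (L K)[X])
    rw [← C_mul, T_mul_T_neg, C_1]
  have hT' : D ⟨C (LaurentPolynomial.T (-1)), hC _⟩ = 0 := by
    apply lnd_unit hD (b := ⟨C (LaurentPolynomial.T 1), hC _⟩)
    apply Subtype.ext
    change C (LaurentPolynomial.T (-1)) * C (LaurentPolynomial.T 1) = (1 : (L K)[X])
    rw [← C_mul, mul_comm, T_mul_T_neg, C_1]
  have hDC : ∀ r, D ⟨C r, hC r⟩ = 0 := by
    intro r
    have hr : r ∈ Algebra.adjoin K {(LaurentPolynomial.T 1 : L K), LaurentPolynomial.T (-1)} := by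
      rw [laurent_adjoin]
      exact Algebra.mem_top
    refine Algebra.adjoin_induction (R := K) (p := fun r _ => D ⟨C r, hC r⟩ = 0) ?_ ?_ ?_ ?_ hr
    · rintro y (rfl | hy)
      · exact hT
      · rw [Set.mem_singleton_iff] at hy
        subst hy
        exact hT'
    · intro c
      exact D.map_algebraMap c
    · intro a b _ _ ha hb
      have : (⟨C (a + b), hC _⟩ : S) = ⟨C a, hC a⟩ + ⟨C b, hC b⟩ := Subtype.ext C_add
      rw [this, map_add, ha, hb, add_zero]
    · intro a b _ _ ha hb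
      have : (⟨C (a * b), hC _⟩ : S) = ⟨C a, hC a⟩ * ⟨C b, hC b⟩ := Subtype.ext C_mul
      rw [this, Derivation.leibniz, ha, hb, smul_zero, smul_zero, add_zero]
  -- the extension to `B`, multiplied by `h`
  let E : B K → (L K)[X] := fun b => (D ⟨C h * (b : (L K)[X]), hB _ b.2⟩ : (L K)[X])
  have hE : ∀ b : B K, E b = (D ⟨C h * (b : (L K)[X]), hB _ b.2⟩ : (L K)[X]) := fun b => rfl
  have Emul : ∀ b c : B K, E (b * c) = (b : (L K)[X]) * E c + (c : (L K)[X]) * E b := by
    intro b c
    have h1 : (⟨C h, hC h⟩ : S) * ⟨C h * ((b * c : B K) : (L K)[X]), hB _ (b * c).2⟩ =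
        ⟨C h * (b : (L K)[X]), hB _ b.2⟩ * ⟨C h * (c : (L K)[X]), hB _ c.2⟩ := by
      apply Subtype.ext
      change C h * (C h * ((b : (L K)[X]) * (c : (L K)[X]))) =
        (C h * (b : (L K)[X])) * (C h * (c : (L K)[X]))
      ring
    have h2 := congrArg (fun y => ((D y : S) : (L K)[X])) h1
    simp only [Derivation.leibniz, hDC, smul_zero, add_zero, smul_eq_mul, Subalgebra.coe_mul,
      Subalgebra.coe_add] at h2
    have h3 : E (b * c) = (D ⟨C h * ((b : (L K)[X]) * (c : (L K)[X])), hB _ (b * c).2⟩ :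
        (L K)[X]) := rfl
    have h4 : ((0 : S) : (L K)[X]) = 0 := rfl
    rw [h4, mul_zero, add_zero, ← h3] at h2
    apply mul_left_cancel₀ hCh0
    rw [h2]
    ring
  have Eadd : ∀ b c : B K, E (b + c) = E b + E c := by
    intro b c
    have h1 : (⟨C h * ((b + c : B K) : (L K)[X]), hB _ (b + c).2⟩ : S) =
        ⟨C h * (b : (L K)[X]), hB _ b.2⟩ + ⟨C h * (c : (L K)[X]), hB _ c.2⟩ := by
      apply Subtype.ext
      change C h * ((b : (L K)[X]) + (c : (L K)[X])) =
        (C h * (b : (L K)[X])) + (C h * (c : (L K)[X]))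
      ring
    rw [hE, h1, map_add]
    rfl
  have EC : ∀ r, E ⟨C r, C_mem r⟩ = 0 := by
    intro r
    have h1 : (⟨C h * ((⟨C r, C_mem r⟩ : B K) : (L K)[X]), hB _ (C_mem r)⟩ : S) =
        ⟨C (h * r), hC _⟩ := Subtype.ext C_mul.symm
    rw [hE, h1, hDC]
    rfl
  have EC' : ∀ r (hr : (C r : (L K)[X]) ∈ B K), E ⟨C r, hr⟩ = 0 := fun r _ => EC r
  obtain ⟨P, hP⟩ : ∃ P, P = E ⟨_, v_mem⟩ := ⟨_, rfl⟩
  have key : ∀ (b : (L K)[X]) (hb : b ∈ B K), C (τ K) * E ⟨b, hb⟩ = derivative b * P := by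
    intro b hb
    refine Algebra.adjoin_induction (R := K)
      (p := fun b hb => C (τ K) * E ⟨b, hb⟩ = derivative b * P) ?_ ?_ ?_ ?_ hb
    · intro y hy
      simp only [Set.mem_insert_iff, Set.mem_singleton_iff] at hy
      rcases hy with rfl | rfl | rfl | rfl | rfl
      · rw [EC' _ (Algebra.subset_adjoin (by simp)), mul_zero, derivative_C, zero_mul]
      · rw [EC' _ (Algebra.subset_adjoin (by simp)), mul_zero, derivative_C, zero_mul]
      · rw [← hP, derivative_C_mul, derivative_X, mul_one]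
      · have h1 : (⟨C (τ K), C_mem _⟩ : B K) * ⟨X * (C (τ K) * X - 1), z_mem⟩ =
            ⟨C (τ K) * X, v_mem⟩ * (⟨C (τ K) * X, v_mem⟩ + ⟨C (-1), C_mem _⟩) := by
          apply Subtype.ext
          change C (τ K) * (X * (C (τ K) * X - 1)) = (C (τ K) * X) * (C (τ K) * X + C (-1))
          rw [C_neg, C_1]
          ring
        have h2 := congrArg E h1
        rw [Emul, Emul, Eadd, EC, EC, ← hP] at h2
        change C (τ K) * E ⟨X * (C (τ K) * X - 1), z_mem⟩ +
          (X * (C (τ K) * X - 1)) * 0 = (C (τ K) * X) * (P + 0) + (C (τ K) * X + C (-1)) * P at h2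
        have h3 : derivative (X * (C (τ K) * X - 1) : (L K)[X]) = 2 * C (τ K) * X - 1 := by
          simp only [derivative_mul, derivative_X, derivative_sub, derivative_C, derivative_one]
          ring
        rw [h3]
        rw [C_neg, C_1] at h2
        linear_combination h2
      · have h1 : (⟨C (τ K), C_mem _⟩ : B K) * (⟨C (τ K), C_mem _⟩ *
            ⟨X ^ 2 * (C (τ K) * X - 1), w_mem⟩) =
            ⟨C (τ K) * X, v_mem⟩ * (⟨C (τ K) * X, v_mem⟩ *
              (⟨C (τ K) * X, v_mem⟩ + ⟨C (-1), C_mem _⟩)) := by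
          apply Subtype.ext
          change C (τ K) * (C (τ K) * (X ^ 2 * (C (τ K) * X - 1))) =
            (C (τ K) * X) * ((C (τ K) * X) * (C (τ K) * X + C (-1)))
          rw [C_neg, C_1]
          ring
        have h2 := congrArg E h1
        rw [Emul, Emul, Emul, Emul, Eadd, EC, EC, ← hP] at h2
        change C (τ K) * (C (τ K) * E ⟨X ^ 2 * (C (τ K) * X - 1), w_mem⟩ +
          (X ^ 2 * (C (τ K) * X - 1)) * 0) + (C (τ K) * (X ^ 2 * (C (τ K) * X - 1))) * 0 =
          (C (τ K) * X) * ((C (τ K) * X) * (P + 0) + (C (τ K) * X + C (-1)) * P) +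
            ((C (τ K) * X) * (C (τ K) * X + C (-1))) * P at h2
        have h3 : derivative (X ^ 2 * (C (τ K) * X - 1) : (L K)[X]) =
            3 * C (τ K) * X ^ 2 - 2 * X := by
          simp only [derivative_mul, derivative_X, derivative_sub, derivative_C, derivative_one,
            derivative_X_pow]
          simp only [Nat.cast_ofNat, C_ofNat]
          ring
        rw [h3]
        rw [C_neg, C_1] at h2
        apply mul_left_cancel₀ hCt0
        linear_combination h2
    · intro r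
      have h1 := EC (algebraMap K (L K) r)
      change C (τ K) * E ⟨C (algebraMap K (L K) r), C_mem _⟩ =
        derivative (C (algebraMap K (L K) r)) * P
      rw [h1, derivative_C, mul_zero, zero_mul]
    · intro a b ha hb h1 h2
      have : (⟨a + b, (B K).add_mem ha hb⟩ : B K) = ⟨a, ha⟩ + ⟨b, hb⟩ := rfl
      rw [this, Eadd, mul_add, h1, h2, derivative_add, add_mul]
    · intro a b ha hb h1 h2
      have : (⟨a * b, (B K).mul_mem ha hb⟩ : B K) = ⟨a, ha⟩ * ⟨b, hb⟩ := rfl
      rw [this, Emul, derivative_mul]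
      change C (τ K) * (a * E ⟨b, hb⟩ + b * E ⟨a, ha⟩) = _
      linear_combination a * h2 + b * h1
  -- the derivation on `S`
  have keyS : ∀ f : S, C (τ K) * (C h * (D f : (L K)[X])) = derivative (f : (L K)[X]) * P := by
    intro f
    rw [← key f (hS f.2), hE]
    congr 1
    have h1 : (⟨C h * (f : (L K)[X]), hB _ (hS f.2)⟩ : S) = ⟨C h, hC h⟩ * f := rfl
    have h2 := congrArg (fun y => ((D y : S) : (L K)[X])) h1
    simp only [Derivation.leibniz, hDC, smul_eq_mul] at h2
    have h4 : (((⟨C h, hC h⟩ : S) * D f + f * 0 : S) : (L K)[X]) = C h * (D f : (L K)[X]) := by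
      rw [mul_zero, add_zero]
      rfl
    rw [h4] at h2
    exact h2.symm
  -- `P` is constant
  have hPdeg : P.natDegree = 0 := by
    by_contra hne
    have hP0 : P ≠ 0 := by
      rintro rfl
      exact hne natDegree_zero
    have : CharZero (L K) := charZero_of_injective_algebraMap (algebraMap K (L K)).injective
    have hstep : ∀ f : S, 0 < (f : (L K)[X]).natDegree → 0 < (D f : (L K)[X]).natDegree := by
      intro f hf
      have h1 := congrArg natDegree (keyS f)
      have hd : derivative (f : (L K)[X]) ≠ 0 := by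
        intro h0
        have := natDegree_eq_zero_of_derivative_eq_zero h0
        omega
      rw [← mul_assoc, ← C_mul, natDegree_C_mul (mul_ne_zero τ_ne hh0), natDegree_mul hd hP0,
        natDegree_derivative] at h1
      omega
    obtain ⟨n, hn⟩ := hD ⟨C h * (C (τ K) * X), hB _ v_mem⟩
    have hall : ∀ n, 0 < (((⇑D)^[n] ⟨C h * (C (τ K) * X), hB _ v_mem⟩ : S) :
        (L K)[X]).natDegree := by
      intro n
      induction n with
      | zero =>
        rw [Function.iterate_zero, id_eq]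
        change 0 < (C h * (C (τ K) * X)).natDegree
        rw [← mul_assoc, ← C_mul, natDegree_C_mul (mul_ne_zero hh0 τ_ne), natDegree_X]
        exact one_pos
      | succ n ih =>
        rw [Function.iterate_succ_apply']
        exact hstep _ ih
    have := hall n
    rw [hn] at this
    simp at this
  obtain ⟨p, rfl⟩ : ∃ p, P = C p := ⟨_, eq_C_of_natDegree_eq_zero hPdeg⟩
  -- `τ²` divides `p`
  obtain ⟨g, rfl⟩ : τ K ^ 2 ∣ p := by
    have h1 := key _ w_mem
    have h3 : derivative (X ^ 2 * (C (τ K) * X - 1) : (L K)[X]) =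
        3 * C (τ K) * X ^ 2 - 2 * X := by
      simp only [derivative_mul, derivative_X, derivative_sub, derivative_C, derivative_one,
        derivative_X_pow]
      simp only [Nat.cast_ofNat, C_ofNat]
      ring
    rw [h3] at h1
    refine dvd_of_w ?_ h1
    rw [hE]
    exact hS (D _).2
  have h5 := keyS f
  have h6 : C h * (D f : (L K)[X]) = derivative (f : (L K)[X]) * (C (τ K) * C g) := by
    apply mul_left_cancel₀ hCt0
    rw [h5, C_mul, C_pow]
    ring
  have h7 := congrArg (ev (evL (1 : Kˣ)) a) h6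
  have h8 : evL (1 : Kˣ) (τ K) = 0 := by
    rw [τ, map_sub, evL_T, map_one]
    simp
  rw [map_mul, map_mul, map_mul, ev_C, ev_C, ev_C, h8, zero_mul, mul_zero] at h7
  exact (mul_eq_zero.1 h7).resolve_left hh

end Q47.TA
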