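import Mathlib
import Pool.Agent.Q47.TA.Base
import Pool.Agent.Q47.SP.Ind

/-!
# Automorphisms of the cylinder
-/

open Polynomial

namespace Q47.TA

open Pool.Agent.H868R3

universe u

section general

variable {K : Type u} [Field K]

/-- an automorphism which preserves a subring restricts to it -/
lemma exists_equiv {A E : Type u} [Semiring A] [Semiring E] [Algebra K A] [Algebra K E]
    (ι : A →ₐ[K] E) (hι : Function.Injective ι) (φ ψ : E →ₐ[K] E) (h1 : ∀ e, φ (ψ e) = e)
    (h2 : ∀ e, ψ (φ e) = e) (hφ : ∀ a, ∃ b, ι b = φ (ι a)) (hψ : ∀ a, ∃ b, ι b = ψ (ι a)) :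
    ∃ Φ : A ≃ₐ[K] A, ∀ a, ι (Φ a) = φ (ι a) := by
  choose f hf using hφ
  choose g hg using hψ
  let F : A →ₐ[K] A :=
    { toFun := f
      map_one' := hι (by rw [hf, map_one, map_one])
      map_mul' := fun a b => hι (by rw [hf, map_mul, map_mul, map_mul, hf, hf])
      map_zero' := hι (by rw [hf, map_zero, map_zero])
      map_add' := fun a b => hι (by rw [hf, map_add, map_add, map_add, hf, hf])
      commutes' := fun r => hι (by rw [hf, AlgHom.commutes, AlgHom.commutes]) }
  let G : A →ₐ[K] A :=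
    { toFun := g
      map_one' := hι (by rw [hg, map_one, map_one])
      map_mul' := fun a b => hι (by rw [hg, map_mul, map_mul, map_mul, hg, hg])
      map_zero' := hι (by rw [hg, map_zero, map_zero])
      map_add' := fun a b => hι (by rw [hg, map_add, map_add, map_add, hg, hg])
      commutes' := fun r => hι (by rw [hg, AlgHom.commutes, AlgHom.commutes]) }
  have hF : ∀ a, ι (F a) = φ (ι a) := hf
  have hG : ∀ a, ι (G a) = ψ (ι a) := hg
  refine ⟨AlgEquiv.ofAlgHom F G ?_ ?_, hF⟩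
  · ext a
    apply hι
    change ι (F (G a)) = ι a
    rw [hF, hG, h1]
  · ext a
    apply hι
    change ι (G (F a)) = ι a
    rw [hG, hF, h2]

variable {A : Type u} [CommRing A] [Algebra K A]

/-- The modified Derksen invariant of a cylinder is graded. -/
theorem coeff_X_mem [CharZero K] {F : A[X]} (hF : F ∈ HDStar K A[X]) (j : ℕ) :
    C (F.coeff j) * X ^ j ∈ HDStar K A[X] := by
  classical
  rcases lt_or_ge F.natDegree j with h | h
  · rw [coeff_eq_zero_of_natDegree_lt h, C_0, zero_mul]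
    exact zero_mem _
  · have := Q47.SP.coeff_mem (K := K) (Subalgebra.toSubmodule (HDStar K A[X])) (F.natDegree + 1)
      (fun j => C (F.coeff j) * X ^ j) ?_ j (Nat.lt_succ_of_le h)
    · exact this
    intro c
    rw [Subalgebra.mem_toSubmodule]
    by_cases hc : c = 0
    · subst hc
      have h0 : ∑ j ∈ Finset.range (F.natDegree + 1), (0 : K) ^ j • (C (F.coeff j) * X ^ j) =
          C (F.coeff 0) := by
        rw [Finset.sum_eq_single 0]
        · simp
        · intro j _ hj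
          rw [zero_pow hj, zero_smul]
        · intro h
          exact absurd (Finset.mem_range.2 (Nat.succ_pos _)) h
      rw [h0]
      exact C_mem_hdstar _
    · let d : A := algebraMap K A c
      have hd : IsUnit d := (IsUnit.mk0 c hc).map (algebraMap K A)
      let _ : Invertible d := hd.invertible
      let σ : A[X] ≃ₐ[K] A[X] := (algEquivCMulXAddC d 0).restrictScalars K
      have h1 : σ F = ∑ j ∈ Finset.range (F.natDegree + 1), c ^ j • (C (F.coeff j) * X ^ j) := by
        change F.comp (C d * X + C 0) = _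
        rw [C_0, add_zero, comp, eval₂_eq_sum_range]
        refine Finset.sum_congr rfl fun j _ => ?_
        rw [mul_pow, Algebra.smul_def]
        have : algebraMap K A[X] (c ^ j) = C d ^ j := by
          rw [map_pow]
          rfl
        rw [this]
        ring
      rw [← h1]
      exact equiv_mem σ hF

/-- The coefficients of a polynomial family of images of a function are in the invariant. -/
theorem mem_of_family [CharZero K] {E : Type u} [CommRing E] [Algebra K E] (ι : A[X] →ₐ[K] E)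
    (hι : Function.Injective ι) (b : A) (n : ℕ) (v : ℕ → E)
    (h : ∀ c : K, ∃ Φ : A[X] ≃ₐ[K] A[X], ι (Φ (C b)) = ∑ j ∈ Finset.range n, c ^ j • v j)
    (j : ℕ) (hj : j < n) (F : A[X]) (hF : ι F = v j) : F ∈ HDStar K A[X] := by
  have h1 := Q47.SP.coeff_mem (K := K)
    ((Subalgebra.toSubmodule (HDStar K A[X])).map ι.toLinearMap) n v ?_ j hj
  · obtain ⟨G, hG, hG'⟩ := h1
    have : G = F := hι (by rw [hF]; exact hG')
    rw [← this]
    exact hG
  · intro c
    obtain ⟨Φ, hΦ⟩ := h c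
    exact ⟨Φ (C b), equiv_C_mem Φ b, hΦ⟩

end general

section shear

variable {K R : Type u} [Field K] [CommRing R] [Algebra K R]

/-- the substitution `V ↦ a`, `u ↦ b` -/
noncomputable def sub (a b : R[X][X]) : R[X][X] →ₐ[R] R[X][X] :=
  eval₂AlgHom (aeval a) b (fun _ => Commute.all _ _)

lemma sub_X (a b : R[X][X]) : sub a b X = b := by simp [sub]

lemma sub_CX (a b : R[X][X]) : sub a b (C X) = a := by simp [sub]

lemma sub_CC (a b : R[X][X]) (r : R) : sub a b (C (C r)) = C (C r) :=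
  (sub a b).commutes r

lemma sub_sub {a b c d : R[X][X]} (h1 : sub a b c = C X) (h2 : sub a b d = X)
    (F : R[X][X]) : sub a b (sub c d F) = F := by
  have : (sub a b : R[X][X] →+* R[X][X]).comp (sub c d : R[X][X] →+* R[X][X]) =
      RingHom.id _ := by
    refine hom_ext2 (R := R) (S := R[X][X]) (fun r => ?_) ?_ ?_
    · change sub a b (sub c d (C (C r))) = C (C r)
      rw [sub_CC, sub_CC]
    · change sub a b (sub c d (C X)) = C X
      rw [sub_CX, h1]
    · change sub a b (sub c d X) = X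
      rw [sub_X, h2]
  exact congrArg (fun f => f F) this

/-- the coordinate ring of the cylinder -/
noncomputable def T (S : Subalgebra K R[X]) : Subalgebra K R[X][X] :=
  (mapAlgHom S.val).range

lemma mem_T {S : Subalgebra K R[X]} {F : R[X][X]} :
    F ∈ T S ↔ ∀ n, F.coeff n ∈ S := by
  constructor
  · rintro ⟨G, rfl⟩ n
    change ((mapAlgHom S.val) G).coeff n ∈ S
    rw [coe_mapAlgHom, coeff_map]
    exact (G.coeff n).2
  · intro h
    obtain ⟨G, hG⟩ := lift_exists S F h
    exact ⟨G, hG⟩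

lemma C_mem_T {S : Subalgebra K R[X]} {s : R[X]} (hs : s ∈ S) : C s ∈ T S := by
  rw [mem_T]
  intro n
  rw [coeff_C]
  split_ifs
  · exact hs
  · exact zero_mem _

lemma X_mem_T {S : Subalgebra K R[X]} : X ∈ T S := by
  rw [mem_T]
  intro n
  rw [coeff_X]
  split_ifs
  · exact one_mem _
  · exact zero_mem _

lemma preserve {S : Subalgebra K R[X]} {S' : Subalgebra K R[X][X]}
    (φ : R[X][X] →ₐ[R] R[X][X]) (hX : φ X ∈ S')
    (hC : ∀ s ∈ S, φ (C s) ∈ S') {F : R[X][X]} (hF : F ∈ T S) : φ F ∈ S' := by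
  rw [F.as_sum_range_C_mul_X_pow, map_sum]
  apply sum_mem
  intro n _
  rw [map_mul, map_pow]
  exact mul_mem (hC _ (mem_T.1 hF n)) (pow_mem hX n)

variable (K) in
/-- the coordinate ring of the surface -/
noncomputable def BB (t : R) : Subalgebra K R[X] :=
  Algebra.adjoin K (Set.range C ∪ {C t * X, X * (C t * X - 1), X ^ 2 * (C t * X - 1)})

variable {t : R}

lemma BC_mem (r : R) : C r ∈ BB K t := Algebra.subset_adjoin (Or.inl ⟨r, rfl⟩)

lemma Bv_mem : C t * X ∈ BB K t := Algebra.subset_adjoin (Or.inr (by simp))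

lemma Bz_mem : X * (C t * X - 1) ∈ BB K t := Algebra.subset_adjoin (Or.inr (by simp))

lemma Bw_mem : X ^ 2 * (C t * X - 1) ∈ BB K t := Algebra.subset_adjoin (Or.inr (by simp))

lemma preserveB {S' : Subalgebra K R[X][X]} (φ : R[X][X] →ₐ[R] R[X][X])
    (hX : φ X ∈ S') (hC : ∀ r : R, C (C r) ∈ S') (hv : φ (C (C t * X)) ∈ S')
    (hz : φ (C (X * (C t * X - 1))) ∈ S') (hw : φ (C (X ^ 2 * (C t * X - 1))) ∈ S')
    {F : R[X][X]} (hF : F ∈ T (BB K t)) : φ F ∈ S' := by
  refine preserve φ hX ?_ hF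
  intro s hs
  refine Algebra.adjoin_induction (R := K) (p := fun s _ => φ (C s) ∈ S') ?_ ?_ ?_ ?_ hs
  · rintro y (⟨r, rfl⟩ | hy)
    · exact (φ.commutes r).symm ▸ hC _
    simp only [Set.mem_insert_iff, Set.mem_singleton_iff] at hy
    rcases hy with rfl | rfl | rfl
    · exact hv
    · exact hz
    · exact hw
  · intro r
    exact (φ.commutes (algebraMap K R r)).symm ▸ hC _
  · intro a b _ _ ha hb
    rw [C_add, map_add]
    exact add_mem ha hb
  · intro a b _ _ ha hb
    rw [C_mul, map_mul]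
    exact mul_mem ha hb

lemma C_v : (C (C t * X) : R[X][X]) = C (C t) * C X := C_mul

lemma C_z : (C (X * (C t * X - 1)) : R[X][X]) = C X * (C (C t) * C X - 1) := by
  rw [C_mul, C_sub, C_mul, C_1]

lemma C_w : (C (X ^ 2 * (C t * X - 1)) : R[X][X]) =
    C X ^ 2 * (C (C t) * C X - 1) := by
  rw [C_mul, C_sub, C_mul, C_1, C_pow]

lemma sub_v (a b : R[X][X]) : sub a b (C (C t * X)) = C (C t) * a := by
  rw [C_v, map_mul, sub_CC, sub_CX]

lemma sub_z (a b : R[X][X]) : sub a b (C (X * (C t * X - 1))) =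
    a * (C (C t) * a - 1) := by
  rw [C_z, map_mul, map_sub, map_mul, map_one, sub_CC, sub_CX]

lemma sub_w (a b : R[X][X]) : sub a b (C (X ^ 2 * (C t * X - 1))) =
    a ^ 2 * (C (C t) * a - 1) := by
  rw [C_w, map_mul, map_sub, map_mul, map_one, map_pow, sub_CC, sub_CX]

lemma Tt_mem (r : R) : (C (C r) : R[X][X]) ∈ T (BB K t) := C_mem_T (BC_mem r)

lemma Tv_mem : (C (C t) * C X : R[X][X]) ∈ T (BB K t) := by
  rw [← C_v]; exact C_mem_T Bv_mem

lemma Tz_mem : (C X * (C (C t) * C X - 1) : R[X][X]) ∈ T (BB K t) := by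
  rw [← C_z]; exact C_mem_T Bz_mem

lemma Tw_mem : (C X ^ 2 * (C (C t) * C X - 1) : R[X][X]) ∈ T (BB K t) := by
  rw [← C_w]; exact C_mem_T Bw_mem

lemma z_shear (e : R[X][X]) : (C X + e) * (C (C t) * (C X + e) - 1) =
    (C X * (C (C t) * C X - 1) : R[X][X]) +
      (2 * (C (C t) * C X) - 1) * e + C (C t) * e ^ 2 := by
  ring

lemma w_shear (e : R[X][X]) : (C X + e) ^ 2 * (C (C t) * (C X + e) - 1) =
    (C X ^ 2 * (C (C t) * C X - 1) : R[X][X]) +
      (3 * (C (C t) * C X) - 2) * (C X * e) +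
      (3 * (C (C t) * C X) - 1) * e ^ 2 + C (C t) * e ^ 3 := by
  ring

/-- shears preserve the cylinder -/
lemma shear_mem {e b : R[X][X]} (he : e ∈ T (BB K t)) (hVe : C X * e ∈ T (BB K t))
    (hb : b ∈ T (BB K t)) {F : R[X][X]} (hF : F ∈ T (BB K t)) :
    sub (C X + e) b F ∈ T (BB K t) := by
  have ht : (C (C t) : R[X][X]) ∈ T (BB K t) := Tt_mem t
  have h2 : (2 : R[X][X]) ∈ T (BB K t) := by exact_mod_cast natCast_mem (T (BB K t)) 2
  have h3 : (3 : R[X][X]) ∈ T (BB K t) := by exact_mod_cast natCast_mem (T (BB K t)) 3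
  refine preserveB _ (by rwa [sub_X]) (fun r => Tt_mem r) ?_ ?_ ?_ hF
  · rw [sub_v, mul_add]
    exact add_mem Tv_mem (mul_mem ht he)
  · rw [sub_z, z_shear]
    exact add_mem (add_mem Tz_mem (mul_mem (sub_mem (mul_mem h2 Tv_mem) (one_mem _)) he))
      (mul_mem ht (pow_mem he 2))
  · rw [sub_w, w_shear]
    exact add_mem (add_mem (add_mem Tw_mem (mul_mem (sub_mem (mul_mem h3 Tv_mem) h2) hVe))
      (mul_mem (sub_mem (mul_mem h3 Tv_mem) (one_mem _)) (pow_mem he 2)))
      (mul_mem ht (pow_mem he 3))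

variable (t) in
/-- the element `h V' (t V' - 1)²` with `V' = V + u` -/
noncomputable def ee (h : R) : R[X][X] :=
  C (C h) * ((C X + X) * (C (C t) * (C X + X) - 1) ^ 2)

lemma z'_mem : ((C X + X) * (C (C t) * (C X + X) - 1) : R[X][X]) ∈ T (BB K t) := by
  have h2 : (2 : R[X][X]) ∈ T (BB K t) := by exact_mod_cast natCast_mem (T (BB K t)) 2
  rw [z_shear]
  exact add_mem (add_mem Tz_mem (mul_mem (sub_mem (mul_mem h2 Tv_mem) (one_mem _)) X_mem_T))
    (mul_mem (Tt_mem t) (pow_mem X_mem_T 2))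

lemma v'_mem : (C (C t) * (C X + X) - 1 : R[X][X]) ∈ T (BB K t) := by
  rw [mul_add]
  exact sub_mem (add_mem Tv_mem (mul_mem (Tt_mem t) X_mem_T)) (one_mem _)

lemma ee_mem (h : R) : ee t h ∈ T (BB K t) := by
  have : ee t h = C (C h) * ((C X + X) * (C (C t) * (C X + X) - 1) *
      (C (C t) * (C X + X) - 1)) := by
    rw [ee, sq, mul_assoc]
  rw [this]
  exact mul_mem (Tt_mem h) (mul_mem z'_mem v'_mem)

lemma Vee_mem (h : R) : C X * ee t h ∈ T (BB K t) := by
  have : C X * ee t h = C (C h) * ((C X + X) * (C (C t) * (C X + X) - 1) *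
      (C X * (C (C t) * C X - 1) + C (C t) * C X * X)) := by
    rw [ee]
    ring
  rw [this]
  exact mul_mem (Tt_mem h) (mul_mem z'_mem (add_mem Tz_mem (mul_mem Tv_mem X_mem_T)))

variable (t) in
/-- the automorphism `V ↦ V + e`, `u ↦ u - e` of the big cylinder -/
noncomputable def Φ (h : R) : R[X][X] →ₐ[R] R[X][X] := sub (C X + ee t h) (X - ee t h)

lemma Φ_ee (h h' : R) : Φ t h (ee t h') = ee t h' := by
  have h1 : Φ t h (C X + X) = C X + X := by
    rw [Φ, map_add, sub_CX, sub_X]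
    ring
  have h2 : Φ t h (C (C h')) = C (C h') := sub_CC _ _ _
  have h3 : Φ t h (C (C t)) = C (C t) := sub_CC _ _ _
  rw [ee, map_mul, map_mul, map_pow, map_sub, map_mul, h1, map_one, h2, h3]

lemma ee_neg (h : R) : ee t (-h) = - ee t h := by
  simp only [ee, map_neg]
  ring

lemma Φ_Φ (h : R) (F : R[X][X]) : Φ t (-h) (Φ t h F) = F := by
  change sub _ _ (sub _ _ F) = F
  apply sub_sub
  · change Φ t (-h) (C X + ee t h) = C X
    rw [map_add, Φ_ee, Φ, sub_CX, ee_neg]
    ring
  · change Φ t (-h) (X - ee t h) = X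
    rw [map_sub, Φ_ee, Φ, sub_X, ee_neg]
    ring

lemma Φ_mem (h : R) {F : R[X][X]} (hF : F ∈ T (BB K t)) : Φ t h F ∈ T (BB K t) :=
  shear_mem (ee_mem h) (Vee_mem h) (sub_mem X_mem_T (ee_mem h)) hF

variable (t) in
/-- the automorphism `V ↦ V + h t u`, `u ↦ u` of the big cylinder -/
noncomputable def Ψ (h : R) : R[X][X] →ₐ[R] R[X][X] :=
  sub (C X + C (C (h * t)) * X) X

lemma Ψ_Ψ (h : R) (F : R[X][X]) : Ψ t (-h) (Ψ t h F) = F := by
  apply sub_sub
  · simp only [map_add, map_mul, sub_CX, sub_X, sub_CC, map_neg]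
    ring
  · rw [sub_X]

lemma Ψ_mem (h : R) {F : R[X][X]} (hF : F ∈ T (BB K t)) : Ψ t h F ∈ T (BB K t) := by
  refine shear_mem (mul_mem (Tt_mem _) X_mem_T) ?_ X_mem_T hF
  have : C X * (C (C (h * t)) * X) = C (C h) * ((C (C t) * C X) * X) := by
    rw [C_mul, C_mul]
    ring
  rw [this]
  exact mul_mem (Tt_mem _) (mul_mem Tv_mem X_mem_T)

end shear

section restr

variable {K R : Type u} [Field K] [CommRing R] [Algebra K R]

/-- an automorphism of the big cylinder preserving the small one -/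
lemma exists_equiv_T {S : Subalgebra K R[X]} (φ ψ : R[X][X] →ₐ[R] R[X][X])
    (h1 : ∀ e, φ (ψ e) = e) (h2 : ∀ e, ψ (φ e) = e) (hφ : ∀ F ∈ T S, φ F ∈ T S)
    (hψ : ∀ F ∈ T S, ψ F ∈ T S) : ∃ Φ : S[X] ≃ₐ[K] S[X],
      ∀ F, mapAlgHom S.val (Φ F) = φ (mapAlgHom S.val F) := by
  apply exists_equiv (mapAlgHom S.val) (mapval_injective S) (φ.restrictScalars K)
    (ψ.restrictScalars K) h1 h2
  · intro a
    exact hφ _ ⟨a, rfl⟩
  · intro a
    exact hψ _ ⟨a, rfl⟩

end restr

end Q47.TA
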