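import Mathlib
import Pool.Agent.Q47.TA.Cyl

/-!
# Elements of the modified Derksen invariant of the cylinder
-/

open Polynomial

namespace Q47.TA

open Pool.Agent.H868R3

universe u

variable {K R : Type u} [Field K] [CommRing R] [Algebra K R] {t : R}

lemma ι_C {S : Subalgebra K R[X]} (s : S) : mapAlgHom S.val (C s) = C (s : R[X]) := by
  rw [coe_mapAlgHom, Polynomial.map_C]
  rfl

lemma ι_X {S : Subalgebra K R[X]} : mapAlgHom S.val X = X := by
  rw [coe_mapAlgHom, Polynomial.map_X]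

lemma ksmul (c : K) (F : R[X][X]) : c • F = C (C (algebraMap K R c)) * F := by
  rw [Algebra.smul_def]
  rfl

lemma alg_eq (c : K) : (algebraMap K R[X][X] c) = C (C (algebraMap K R c)) := rfl

/-- the family `Ψ` gives `(3 v² - 2 v) u` -/
theorem p_mem [CharZero K] (s : BB K t)
    (hs : (s : R[X]) = 3 * (C t * X) ^ 2 - 2 * (C t * X)) :
    C s * X ∈ HDStar K (BB K t)[X] := by
  refine mem_of_family (mapAlgHom (BB K t).val) (mapval_injective _)
    ⟨X ^ 2 * (C t * X - 1), Bw_mem⟩ 4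
    (fun j => if j = 0 then C X ^ 2 * (C (C t) * C X - 1) else
      if j = 1 then (3 * (C (C t) * C X) - 2) * (C X * (C (C t) * X)) else
      if j = 2 then (3 * (C (C t) * C X) - 1) * (C (C t) * X) ^ 2 else
      C (C t) * (C (C t) * X) ^ 3) ?_ 1 (by norm_num) _ ?_
  · intro c
    obtain ⟨Φ, hΦ⟩ := exists_equiv_T (S := BB K t) (Ψ t (algebraMap K R c))
      (Ψ t (-(algebraMap K R c)))
      (fun e => by
        have := Ψ_Ψ (t := t) (-(algebraMap K R c)) e
        rwa [neg_neg] at this)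
      (Ψ_Ψ _) (fun F hF => Ψ_mem _ hF) (fun F hF => Ψ_mem _ hF)
    refine ⟨Φ, ?_⟩
    rw [hΦ, ι_C]
    change sub _ _ _ = _
    rw [sub_w, w_shear]
    simp only [Finset.sum_range_succ, Finset.sum_range_zero, ksmul, map_pow, C_mul, if_true,
      zero_add]
    norm_num
    ring
  · rw [map_mul, ι_C, ι_X, hs]
    simp only [if_true, if_neg one_ne_zero, C_sub, C_mul, C_pow, C_ofNat]
    ring

lemma coeff_one_aux (A0 A1 A2 A3 : R[X]) :
    (C A0 + C A1 * X + C A2 * X ^ 2 + C A3 * X ^ 3 : R[X][X]).coeff 1 = A1 := by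
  simp [coeff_C]

/-- the family `Φ` gives `h² (2 v - 1) (v - 1) (3 v - 1) u` -/
theorem q_mem [CharZero K] {S : Subalgebra K R[X]} (h : R)
    (hB : ∀ b ∈ BB K t, C h * b ∈ S)
    (hpres : ∀ c : K, ∀ F ∈ T S, Φ t (algebraMap K R c * h) F ∈ T S) (s : S)
    (hs : (s : R[X]) = C (h ^ 2) * ((2 * (C t * X) - 1) * (C t * X - 1) * (3 * (C t * X) - 1))) :
    C s * X ∈ HDStar K S[X] := by
  have hee : ∀ c : K, ee t (algebraMap K R c * h) = C (C (algebraMap K R c)) * ee t h := by
    intro c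
    simp only [ee, C_mul]
    ring
  have h2 : (2 : R[X][X]) ∈ T (BB K t) := by exact_mod_cast natCast_mem (T (BB K t)) 2
  have hmem : C (C h) * ((2 * (C (C t) * C X) - 1) * ee t h) ∈ T S := by
    rw [mem_T]
    intro n
    rw [coeff_C_mul]
    apply hB
    exact mem_T.1 (mul_mem (sub_mem (mul_mem h2 Tv_mem) (one_mem _)) (ee_mem h)) n
  obtain ⟨F, hF⟩ := hmem
  change (mapAlgHom S.val) F = _ at hF
  have hFm : F ∈ HDStar K S[X] := by
    refine mem_of_family (mapAlgHom S.val) (mapval_injective _)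
      ⟨C h * (X * (C t * X - 1)), hB _ Bz_mem⟩ 3
      (fun j => if j = 0 then C (C h) * (C X * (C (C t) * C X - 1)) else
        if j = 1 then C (C h) * ((2 * (C (C t) * C X) - 1) * ee t h) else
        C (C h) * (C (C t) * ee t h ^ 2)) ?_ 1 (by norm_num) _ ?_
    · intro c
      obtain ⟨Φ', hΦ⟩ := exists_equiv_T (S := S) (Φ t (algebraMap K R c * h))
        (Φ t (-(algebraMap K R c * h)))
        (fun e => by
          have := Φ_Φ (t := t) (-(algebraMap K R c * h)) e
          rwa [neg_neg] at this)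
        (Φ_Φ _) (hpres c) (fun F hF => by
          have := hpres (-c) F hF
          rwa [map_neg, neg_mul] at this)
      refine ⟨Φ', ?_⟩
      rw [hΦ, ι_C]
      change sub _ _ (C (C h * (X * (C t * X - 1)))) = _
      rw [C_mul, map_mul, sub_z, z_shear, sub_CC, hee]
      simp only [Finset.sum_range_succ, Finset.sum_range_zero, ksmul, map_pow, if_true,
        zero_add]
      norm_num
      ring
    · rw [hF]
      simp
  have h3 := coeff_X_mem hFm 1
  rw [pow_one] at h3
  have h4 : F.coeff 1 = s := by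
    apply Subtype.ext
    have h5 : ((F.coeff 1 : S) : R[X]) = ((mapAlgHom S.val) F).coeff 1 := by
      rw [coe_mapAlgHom, coeff_map]
      rfl
    rw [h5, hF, hs]
    have h6 : C (C h) * ((2 * (C (C t) * C X) - 1) * ee t h) =
        C (C (h ^ 2) * (2 * (C t * X) - 1) * (X * (C t * X - 1) ^ 2)) +
        C (C (h ^ 2) * ((2 * (C t * X) - 1) * (C t * X - 1) * (3 * (C t * X) - 1))) * X +
        C (C (h ^ 2) * (2 * (C t * X) - 1) * (C t ^ 2 * X + 2 * C t * (C t * X - 1))) * X ^ 2 +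
        C (C (h ^ 2) * (2 * (C t * X) - 1) * C t ^ 2) * X ^ 3 := by
      simp only [ee, C_mul, C_sub, C_add, C_pow, C_1, C_ofNat]
      ring
    rw [h6, coeff_one_aux]
  rwa [h4] at h3

/-- The surface is of type A. -/
theorem typeA [CharZero K] : HDStar K (BB K t)[X] = ⊤ := by
  let v : BB K t := ⟨C t * X, Bv_mem⟩
  have hv : (v : R[X]) = C t * X := rfl
  have hp : C (3 * v ^ 2 - 2 * v) * X ∈ HDStar K (BB K t)[X] := p_mem _ rfl
  have hq : C ((2 * v - 1) * (v - 1) * (3 * v - 1)) * X ∈ HDStar K (BB K t)[X] := by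
    refine q_mem (t := t) (S := BB K t) 1 ?_ ?_ _ ?_
    · intro b hb
      rwa [C_1, one_mul]
    · intro c F hF
      exact Φ_mem _ hF
    · rw [one_pow, C_1, one_mul]
      rfl
  have hC : ∀ b : BB K t, C b ∈ HDStar K (BB K t)[X] := C_mem_hdstar
  have h3X : (3 : K) • (X : (BB K t)[X]) ∈ HDStar K (BB K t)[X] := by
    have h1 : (3 : K) • (X : (BB K t)[X]) = C (16 : BB K t) * (C (3 * v ^ 2 - 2 * v) * X) +
        C (-(12 * v + 1)) * (C 3 * (C ((2 * v - 1) * (v - 1) * (3 * v - 1)) * X) +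
        C (7 - 6 * v) * (C (3 * v ^ 2 - 2 * v) * X)) := by
      have h2 : (3 : K) • (X : (BB K t)[X]) = 3 * X := by
        rw [Algebra.smul_def, map_ofNat]
      rw [h2]
      simp only [C_mul, map_neg, C_sub, C_add, C_pow, C_1, C_ofNat]
      ring
    rw [h1]
    exact (HDStar K (BB K t)[X]).add_mem ((HDStar K (BB K t)[X]).mul_mem (hC _) hp)
      ((HDStar K (BB K t)[X]).mul_mem (hC _) ((HDStar K (BB K t)[X]).add_mem
      ((HDStar K (BB K t)[X]).mul_mem (hC _) hq) ((HDStar K (BB K t)[X]).mul_mem (hC _) hp)))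
  have hX : (X : (BB K t)[X]) ∈ HDStar K (BB K t)[X] := by
    have := (HDStar K (BB K t)[X]).smul_mem h3X ((3 : K)⁻¹)
    rwa [smul_smul, inv_mul_cancel₀ (by norm_num), one_smul] at this
  rw [eq_top_iff]
  intro F _
  rw [F.as_sum_range_C_mul_X_pow]
  apply sum_mem
  intro n _
  exact mul_mem (hC _) (pow_mem hX n)

end Q47.TA
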