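import Mathlib
import Pool.Agent.Q47.TA.TypeA

/-!
# The surface over the Laurent polynomials
-/

open Polynomial

namespace Q47.TA

open Pool.Agent.H868R3

universe u

variable (K : Type u) [Field K]

lemma B_eq : B K = BB K (τ K) := by
  apply le_antisymm
  · apply Algebra.adjoin_le
    intro y hy
    simp only [Set.mem_insert_iff, Set.mem_singleton_iff] at hy
    rcases hy with rfl | rfl | rfl | rfl | rfl
    · exact BC_mem _
    · exact BC_mem _
    · exact Bv_mem
    · exact Bz_mem
    · exact Bw_mem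
  · apply Algebra.adjoin_le
    rintro y (⟨r, rfl⟩ | hy)
    · exact C_mem r
    · simp only [Set.mem_insert_iff, Set.mem_singleton_iff] at hy
      rcases hy with rfl | rfl | rfl
      · exact v_mem
      · exact z_mem
      · exact w_mem

lemma BB_fg : (BB K (τ K)).FG := by
  classical
  rw [← B_eq]
  refine ⟨{C (LaurentPolynomial.T 1), C (LaurentPolynomial.T (-1)), C (τ K) * X,
    X * (C (τ K) * X - 1), X ^ 2 * (C (τ K) * X - 1)}, ?_⟩
  rw [B]
  congr 1
  simp

instance BB_finiteType : Algebra.FiniteType K (BB K (τ K)) :=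
  (BB K (τ K)).fg_iff_finiteType.1 (BB_fg K)

variable {K}

theorem BB_vanish [CharZero K] (D : Derivation K (BB K (τ K)) (BB K (τ K)))
    (hD : IsLND (K := K) (A := BB K (τ K)) D) (f : BB K (τ K)) :
    ((ev (evL (1 : Kˣ)) 0).comp (BB K (τ K)).val) (D f) = 0 := by
  refine lnd_vanish (BB K (τ K)) (B_eq K).ge (BC_mem _) (BC_mem _) 1 ?_ ?_ D hD f 0
  · intro b hb
    rw [C_1, one_mul, ← B_eq]
    exact hb
  · rw [map_one]
    exact one_ne_zero

end Q47.TA
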