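import Mathlib
import Pool.Agent.Q47.TA.Surf

/-!
# Gluing two points of the surface
-/

open Polynomial

namespace Q47.TA

open Pool.Agent.H868R3

universe u

section gen

variable {K R : Type u} [Field K] [CommRing R] [Algebra K R] {t : R}

omit [Algebra K R] in
lemma map_Φ (p : R[X] →+* K) {h : R} (hp : p (C h) = 0) (F : R[X][X]) :
    (Φ t h F).map p = F.map p := by
  have hee : (ee t h).map p = 0 := by
    rw [ee, Polynomial.map_mul, Polynomial.map_C, hp, C_0, zero_mul]
  have : (mapRingHom p).comp (Φ t h : R[X][X] →+* R[X][X]) = mapRingHom p := by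
    refine hom_ext2 (R := R) (S := K[X]) (fun r => ?_) ?_ ?_
    · change (Φ t h (C (C r))).map p = (C (C r)).map p
      rw [Φ, sub_CC]
    · change (Φ t h (C X)).map p = (C X).map p
      rw [Φ, sub_CX, Polynomial.map_add, hee, add_zero]
    · change (Φ t h X).map p = X.map p
      rw [Φ, sub_X, Polynomial.map_sub, hee, sub_zero]
  exact congrArg (fun f => f F) this

/-- two points are glued -/
noncomputable def GG (t : R) (p q : R[X] →ₐ[K] K) : Subalgebra K R[X] :=
  BB K t ⊓ AlgHom.equalizer p q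

variable {p q : R[X] →ₐ[K] K}

lemma mem_GG {f : R[X]} : f ∈ GG t p q ↔ f ∈ BB K t ∧ p f = q f := Iff.rfl

lemma mem_T_GG {F : R[X][X]} : F ∈ T (GG t p q) ↔
    F ∈ T (BB K t) ∧ F.map (p : R[X] →+* K) = F.map (q : R[X] →+* K) := by
  rw [mem_T, mem_T]
  constructor
  · intro h
    refine ⟨fun n => (h n).1, ?_⟩
    ext n
    rw [coeff_map, coeff_map]
    exact (h n).2
  · rintro ⟨h1, h2⟩ n
    refine ⟨h1 n, ?_⟩
    have := congrArg (fun P => P.coeff n) h2
    simp only [coeff_map] at this
    exact this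

lemma Φ_mem_GG {h : R} (hp : p (C h) = 0) (hq : q (C h) = 0) {F : R[X][X]}
    (hF : F ∈ T (GG t p q)) : Φ t h F ∈ T (GG t p q) := by
  rw [mem_T_GG] at hF ⊢
  refine ⟨Φ_mem h hF.1, ?_⟩
  rw [map_Φ (p : R[X] →+* K) hp, map_Φ (q : R[X] →+* K) hq]
  exact hF.2

lemma mul_mem_GG {h : R} (hp : p (C h) = 0) (hq : q (C h) = 0) {b : R[X]}
    (hb : b ∈ BB K t) : C h * b ∈ GG t p q := by
  refine ⟨mul_mem (BC_mem h) hb, ?_⟩
  change p _ = q _
  rw [map_mul, map_mul, hp, hq, zero_mul, zero_mul]

lemma der_mem {f : R[X]} (hf : f ∈ BB K t) : C t * derivative f ∈ BB K t := by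
  have h2 : (2 : R[X]) ∈ BB K t := by exact_mod_cast natCast_mem (BB K t) 2
  have h3 : (3 : R[X]) ∈ BB K t := by exact_mod_cast natCast_mem (BB K t) 3
  refine Algebra.adjoin_induction (R := K) (p := fun f _ => C t * derivative f ∈ BB K t)
    ?_ ?_ ?_ ?_ hf
  · rintro y (⟨r, rfl⟩ | hy)
    · rw [derivative_C, mul_zero]
      exact zero_mem _
    simp only [Set.mem_insert_iff, Set.mem_singleton_iff] at hy
    rcases hy with rfl | rfl | rfl
    · rw [derivative_C_mul, derivative_X, mul_one]
      exact mul_mem (BC_mem _) (BC_mem _)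
    · have : C t * derivative (X * (C t * X - 1)) = C t * (2 * (C t * X) - 1) := by
        simp only [derivative_mul, derivative_X, derivative_sub, derivative_C, derivative_one]
        ring
      rw [this]
      exact mul_mem (BC_mem _) (sub_mem (mul_mem h2 Bv_mem) (one_mem _))
    · have : C t * derivative (X ^ 2 * (C t * X - 1)) =
          3 * ((C t * X) * (C t * X)) - 2 * (C t * X) := by
        simp only [derivative_mul, derivative_X, derivative_sub, derivative_C, derivative_one,
          derivative_X_pow]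
        simp only [Nat.cast_ofNat, C_ofNat]
        ring
      rw [this]
      exact sub_mem (mul_mem h3 (mul_mem Bv_mem Bv_mem)) (mul_mem h2 Bv_mem)
  · intro r
    have : (algebraMap K R[X] r) = C (algebraMap K R r) := rfl
    rw [this, derivative_C, mul_zero]
    exact zero_mem _
  · intro a b _ _ ha hb
    rw [derivative_add, mul_add]
    exact add_mem ha hb
  · intro a b ha' hb' ha hb
    have : C t * derivative (a * b) = (C t * derivative a) * b + a * (C t * derivative b) := by
      rw [derivative_mul]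
      ring
    rw [this]
    exact add_mem (mul_mem ha hb') (mul_mem ha' hb)

/-- the derivation `h t ∂/∂V` of the glued surface -/
noncomputable def gD (h : R) (hp : p (C h) = 0) (hq : q (C h) = 0) :
    Derivation K (GG t p q) (GG t p q) :=
  Derivation.mk'
    { toFun := fun f => ⟨C h * (C t * derivative (f : R[X])), mul_mem_GG hp hq (der_mem f.2.1)⟩
      map_add' := by
        intro f g
        apply Subtype.ext
        change C h * (C t * derivative ((f : R[X]) + (g : R[X]))) =
          C h * (C t * derivative (f : R[X])) + C h * (C t * derivative (g : R[X]))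
        rw [derivative_add]
        ring
      map_smul' := by
        intro c f
        apply Subtype.ext
        change C h * (C t * derivative (c • (f : R[X]))) =
          c • (C h * (C t * derivative (f : R[X])))
        rw [derivative_smul, mul_smul_comm, mul_smul_comm] }
    (by
      intro f g
      apply Subtype.ext
      change C h * (C t * derivative ((f : R[X]) * (g : R[X]))) =
        (f : R[X]) * (C h * (C t * derivative (g : R[X]))) +
          (g : R[X]) * (C h * (C t * derivative (f : R[X])))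
      rw [derivative_mul]
      ring)

lemma gD_coe (h : R) (hp : p (C h) = 0) (hq : q (C h) = 0) (f : GG t p q) :
    (gD h hp hq f : R[X]) = C h * (C t * derivative (f : R[X])) := rfl

lemma gD_lnd (h : R) (hp : p (C h) = 0) (hq : q (C h) = 0) :
    IsLND (K := K) (A := GG t p q) (gD h hp hq) := by
  have key : ∀ (n : ℕ) (f : GG t p q), (((⇑(gD h hp hq))^[n] f : GG t p q) : R[X]) =
      C (h * t) ^ n * derivative^[n] (f : R[X]) := by
    intro n
    induction n with
    | zero => intro f; simp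
    | succ n ih =>
      intro f
      rw [Function.iterate_succ_apply', gD_coe, ih, Function.iterate_succ_apply',
        derivative_mul, ← C_pow, derivative_C]
      simp only [C_pow, C_mul]
      ring
  intro f
  refine ⟨(f : R[X]).natDegree + 1, ?_⟩
  apply Subtype.ext
  rw [key, Polynomial.iterate_derivative_eq_zero (Nat.lt_succ_self _), mul_zero]
  rfl

/-- the glued surface is affine -/
lemma GG_fg (e : R[X]) (he : e ∈ BB K t) (hpe : p e = 0) (hqe : q e = 1)
    (hB : (BB K t).FG) : (GG t p q).FG := by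
  classical
  let p' : BB K t →ₐ[K] K := p.comp (BB K t).val
  let q' : BB K t →ₐ[K] K := q.comp (BB K t).val
  let G : Subalgebra K (BB K t) := AlgHom.equalizer p' q'
  have hmap : G.map (BB K t).val = GG t p q := by
    ext f
    constructor
    · rintro ⟨g, hg, rfl⟩
      exact ⟨g.2, hg⟩
    · rintro ⟨h1, h2⟩
      exact ⟨⟨f, h1⟩, h2, rfl⟩
  have hG : (⊤ : Subalgebra K G).FG := by
    apply fg_of_fg_of_fg K G (BB K t) ((BB K t).fg_iff_finiteType.1 hB).out
    · refine ⟨{1, ⟨e, he⟩}, ?_⟩
      rw [eq_top_iff]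
      intro f _
      obtain ⟨c, hc⟩ : ∃ c : K, c = q' f - p' f := ⟨_, rfl⟩
      have he' : (⟨e, he⟩ : BB K t) = ⟨e, he⟩ := rfl
      have hpe' : p' ⟨e, he⟩ = 0 := hpe
      have hqe' : q' ⟨e, he⟩ = 1 := hqe
      have hg : f - algebraMap K (BB K t) c * ⟨e, he⟩ ∈ G := by
        change p' _ = q' _
        rw [map_sub, map_sub, map_mul, map_mul, AlgHom.commutes, AlgHom.commutes, hpe', hqe', hc]
        simp
      have hf : f = (⟨_, hg⟩ : G) • (1 : BB K t) + (algebraMap K G c) • (⟨e, he⟩ : BB K t) := by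
        change f = (f - algebraMap K (BB K t) c * ⟨e, he⟩) * 1 +
          algebraMap K (BB K t) c * ⟨e, he⟩
        ring
      rw [hf]
      apply Submodule.add_mem
      · exact Submodule.smul_mem _ _ (Submodule.subset_span (by simp))
      · exact Submodule.smul_mem _ _ (Submodule.subset_span (by simp))
    · exact Subtype.val_injective
  have hG' : G.FG := G.fg_iff_finiteType.2 ⟨hG⟩
  rw [← hmap]
  exact hG'.map _

end gen

section inst

variable (K : Type u) [Field K] [CharZero K]

/-- the point `x = -1`, `V = 0` -/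
noncomputable abbrev p0 := ev (evL (-1 : Kˣ)) 0

/-- the point `x = -1`, `V = 1` -/
noncomputable abbrev p1 := ev (evL (-1 : Kˣ)) 1

/-- the glued surface -/
noncomputable abbrev GS := GG (τ K) (p0 K) (p1 K)

/-- the equation of the fibre `x = -1` -/
noncomputable def hh : L K := LaurentPolynomial.T 1 + 1

variable {K}

omit [CharZero K] in
lemma p0_C (r : L K) : p0 K (C r) = evL (-1 : Kˣ) r := ev_C _ _ _

omit [CharZero K] in
lemma p1_C (r : L K) : p1 K (C r) = evL (-1 : Kˣ) r := ev_C _ _ _

omit [CharZero K] in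
lemma evL_hh : evL (-1 : Kˣ) (hh K) = 0 := by
  rw [hh, map_add, evL_T, map_one]
  simp

omit [CharZero K] in
lemma evL_one_hh : evL (1 : Kˣ) (hh K) = 2 := by
  rw [hh, map_add, evL_T, map_one]
  norm_num

omit [CharZero K] in
lemma evL_τ : evL (-1 : Kˣ) (τ K) = -2 := by
  rw [τ, map_sub, evL_T, map_one]
  norm_num

omit [CharZero K] in
lemma p0_hh : p0 K (C (hh K)) = 0 := by rw [p0_C, evL_hh]

omit [CharZero K] in
lemma p1_hh : p1 K (C (hh K)) = 0 := by rw [p1_C, evL_hh]

variable (K) in
/-- a function separating the two points -/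
noncomputable def ss : (L K)[X] := C (algebraMap K (L K) (-(1 / 2))) * (C (τ K) * X)

omit [CharZero K] in
lemma ss_mem : ss K ∈ BB K (τ K) := mul_mem (BC_mem _) Bv_mem

omit [CharZero K] in
lemma p0_ss : p0 K (ss K) = 0 := by
  have : p0 K (X : (L K)[X]) = 0 := ev_X _ _
  rw [ss, map_mul, map_mul, this, mul_zero, mul_zero]

lemma p1_ss : p1 K (ss K) = 1 := by
  have : p1 K (X : (L K)[X]) = 1 := ev_X _ _
  rw [ss, map_mul, map_mul, this, p1_C, p1_C, AlgHom.commutes, evL_τ, mul_one]
  simp

instance GS_finiteType : Algebra.FiniteType K (GS K) :=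
  (GS K).fg_iff_finiteType.1 (GG_fg (ss K) ss_mem p0_ss p1_ss (BB_fg K))

/-- The invariant of the cylinder consists of functions which are constant on the glued line. -/
theorem GS_const (F : (GS K)[X]) (hF : F ∈ HDStar K (GS K)[X]) :
    ∃ k : K, resLine (GS K) (p0 K) F = C k := by
  refine hdstar_const (GS K) (p0 K) (p1 K) (fun a ha => ha.2) (ss K) 1 p0_ss p1_ss
    (one_mem _) (map_one _) ?_ F hF
  intro f hf h0 i
  refine ⟨mul_mem (mul_mem (one_mem _) (pow_mem ss_mem i)) hf.1, ?_⟩
  change p0 K _ = p1 K _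
  have h1 : p0 K f = p1 K f := hf.2
  rw [map_mul, map_mul (p1 K), ← h1, h0, mul_zero, mul_zero]

theorem GS_ne_top : HDStar K (GS K)[X] ≠ ⊤ := by
  intro htop
  obtain ⟨k, hk⟩ := GS_const (K := K) X (by rw [htop]; exact Algebra.mem_top)
  have h2 : resLine (GS K) (p0 K) X = X := by simp [resLine]
  rw [h2] at hk
  have := congrArg (fun P : K[X] => P.coeff 1) hk
  simp at this

/-- The glued surface is not rigid. -/
theorem GS_lnd : ∃ D : Derivation K (GS K) (GS K), IsLND (K := K) (A := GS K) D ∧ D ≠ 0 := by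
  refine ⟨gD (hh K) p0_hh p1_hh, gD_lnd _ _ _, ?_⟩
  intro h0
  have h1 : (gD (hh K) p0_hh p1_hh : Derivation K (GS K) (GS K))
      ⟨C (hh K) * (C (τ K) * X), mul_mem_GG p0_hh p1_hh Bv_mem⟩ = 0 := by
    rw [h0]
    rfl
  have h2 := congrArg (fun y : GS K => (y : (L K)[X])) h1
  change C (hh K) * (C (τ K) * derivative (C (hh K) * (C (τ K) * X))) = (0 : (L K)[X]) at h2
  rw [derivative_C_mul, derivative_C_mul, derivative_X, mul_one] at h2
  have hh0 : hh K ≠ 0 := by
    intro h
    have := evL_one_hh (K := K)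
    rw [h, map_zero] at this
    norm_num at this
  have h3 : (C (hh K) : (L K)[X]) ≠ 0 := by rwa [Ne, C_eq_zero]
  have h4 : (C (τ K) : (L K)[X]) ≠ 0 := by
    rw [Ne, C_eq_zero]
    exact τ_ne
  exact mul_ne_zero h3 (mul_ne_zero h4 (mul_ne_zero h3 h4)) h2

/-- All images of locally nilpotent derivations vanish at `x = 1`, `V = 0`. -/
theorem GS_vanish (D : Derivation K (GS K) (GS K)) (hD : IsLND (K := K) (A := GS K) D)
    (f : GS K) : ((ev (evL (1 : Kˣ)) 0).comp (GS K).val) (D f) = 0 := by
  have hC : ∀ r : L K, C r ∈ GS K := fun r => ⟨BC_mem r, by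
    change p0 K _ = p1 K _
    rw [p0_C, p1_C]⟩
  refine lnd_vanish (GS K) (fun f hf => (B_eq K).ge hf.1) (hC _) (hC _) (hh K) ?_ ?_ D hD f 0
  · intro b hb
    exact mul_mem_GG p0_hh p1_hh ((B_eq K).le hb)
  · rw [evL_one_hh]
    norm_num

/-- An element of the invariant whose coefficient of `u` is not in the image ideal. -/
theorem GS_elt : ∃ s : GS K, C s * X ∈ HDStar K (GS K)[X] ∧
    ((ev (evL (1 : Kˣ)) 0).comp (GS K).val) s ≠ 0 := by
  have hm : C (hh K ^ 2) * ((2 * (C (τ K) * X) - 1) * (C (τ K) * X - 1) *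
      (3 * (C (τ K) * X) - 1)) ∈ GS K := by
    have h2 : (2 : (L K)[X]) ∈ BB K (τ K) := by exact_mod_cast natCast_mem (BB K (τ K)) 2
    have h3 : (3 : (L K)[X]) ∈ BB K (τ K) := by exact_mod_cast natCast_mem (BB K (τ K)) 3
    have h1 : C (hh K ^ 2) * ((2 * (C (τ K) * X) - 1) * (C (τ K) * X - 1) *
      (3 * (C (τ K) * X) - 1)) = C (hh K) * (C (hh K) * ((2 * (C (τ K) * X) - 1) *
        (C (τ K) * X - 1) * (3 * (C (τ K) * X) - 1))) := by
      rw [C_pow]
      ring
    rw [h1]
    refine mul_mem_GG p0_hh p1_hh (mul_mem (BC_mem _) (mul_mem (mul_mem ?_ ?_) ?_))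
    · exact (BB K (τ K)).sub_mem (mul_mem h2 Bv_mem) (one_mem _)
    · exact (BB K (τ K)).sub_mem Bv_mem (one_mem _)
    · exact (BB K (τ K)).sub_mem (mul_mem h3 Bv_mem) (one_mem _)
  refine ⟨⟨_, hm⟩, ?_, ?_⟩
  · refine q_mem (t := τ K) (S := GS K) (hh K) ?_ ?_ ⟨_, hm⟩ rfl
    · intro b hb
      exact mul_mem_GG p0_hh p1_hh hb
    · intro c F hF
      refine Φ_mem_GG ?_ ?_ hF
      · rw [C_mul, map_mul, p0_hh, mul_zero]
      · rw [C_mul, map_mul, p1_hh, mul_zero]
  · change ev (evL (1 : Kˣ)) 0 (C (hh K ^ 2) * ((2 * (C (τ K) * X) - 1) * (C (τ K) * X - 1) *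
      (3 * (C (τ K) * X) - 1))) ≠ 0
    have h1 : ev (evL (1 : Kˣ)) 0 (C (τ K) * X) = 0 := by
      rw [map_mul, ev_X, mul_zero]
    generalize C (τ K) * X = v at h1
    rw [map_mul, map_mul, map_mul, map_sub, map_sub, map_sub, map_mul, map_mul, h1, ev_C,
      map_pow, evL_one_hh, map_one]
    norm_num

end inst

end Q47.TA
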